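import Pool.Agent.Run7.h924.GMF

/-!
# The largest Gromov mass of a normed unit ball

Among the `o`-symmetric convex bodies `M` of `ℝᵈ`, Gromov's mass of `M` (in the normed space with
unit ball `M`) is largest exactly for the ellipsoids, and the largest value is the volume of the
Euclidean unit ball.
-/

set_option autoImplicit false

noncomputable section

open MeasureTheory Set

namespace Pool.Agent.Results.MP_77d991_gt.MaximalGromovMass

/-- `ℝᵈ` -/
abbrev Space (d : ℕ) : Type := EuclideanSpace ℝ (Fin d)

/-- `o`-symmetric convex bodies -/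
structure IsSymConvexBody {d : ℕ} (M : Set (Space d)) : Prop where
  isCompact : IsCompact M
  convex : Convex ℝ M
  interior_nonempty : (interior M).Nonempty
  neg_mem : ∀ x ∈ M, -x ∈ M

/-- the volume `vol_d` -/
def vol {d : ℕ} (A : Set (Space d)) : ℝ := (volume A).toReal

/-- the cross-polytope `conv {± v₁, …, ± v_d}` -/
def crossPolytope {d : ℕ} (v : Fin d → Space d) : Set (Space d) :=
  convexHull ℝ (Set.range v ∪ Set.range fun i => -v i)

/-- the volumes of the cross-polytopes inscribed in `M` -/
def inscribedVolumes {d : ℕ} (M : Set (Space d)) : Set ℝ :=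
  {t | ∃ v : Fin d → Space d, LinearIndependent ℝ v ∧ (∀ i, v i ∈ M) ∧ t = vol (crossPolytope v)}

/-- Gromov's mass `vol^m_M(M)` of the body `M` in the space with unit ball `M` -/
def gromovMass {d : ℕ} (M : Set (Space d)) : ℝ :=
  2 ^ d / (d.factorial : ℝ) * (vol M / sSup (inscribedVolumes M))

open Run7.h924.GM

theorem body_iff {d : ℕ} (M : Set (Space d)) : IsSymConvexBody M ↔ Pool.Agent.H638.IB.Body M :=
  ⟨fun h => ⟨h.1, h.2, h.3, h.4⟩, fun h => ⟨h.1, h.2, h.3, h.4⟩⟩

theorem greatest {d : ℕ} (hd : 0 < d) {M : Set (Space d)} (hM : IsSymConvexBody M) :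
    IsGreatest (inscribedVolumes M) (2 ^ d / (d.factorial : ℝ) * DD M) := by
  have hb := (body_iff M).1 hM
  constructor
  · obtain ⟨v, hv, h⟩ := exists_DD hb.compact (body_ne hb)
    refine ⟨v, ?_, hv, ?_⟩
    · have h1 : IsUnit ((EuclideanSpace.basisFun (Fin d) ℝ).toBasis.det v) := by
        have h2 : dt v ≠ 0 := by
          intro h3
          rw [h3, abs_zero] at h
          exact absurd h (DD_pos hb).ne
        exact isUnit_iff_ne_zero.2 h2
      exact ((Module.Basis.is_basis_iff_det _).2 h1).1
    · have := vol_cross hd v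
      rw [h] at this
      exact this.symm
  · rintro t ⟨v, -, hv, rfl⟩
    have := vol_cross hd v
    unfold Pool.Agent.H638.IB.vol cross at this
    unfold vol crossPolytope
    rw [this]
    exact mul_le_mul_of_nonneg_left (le_DD hb.compact hv) (by positivity)

theorem mass_eq {d : ℕ} (hd : 0 < d) {M : Set (Space d)} (hM : IsSymConvexBody M) :
    gromovMass M = G M := by
  have hb := (body_iff M).1 hM
  have hD := DD_pos hb
  unfold gromovMass G
  rw [(greatest hd hM).csSup_eq]
  show 2 ^ d / (d.factorial : ℝ) * (vol M / (2 ^ d / (d.factorial : ℝ) * DD M)) = vol M / DD M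
  field_simp

/-- **The largest Gromov mass of a normed unit ball.**  For every `d ≥ 1` (in particular for all
`d ≥ 3`): every `o`-symmetric convex body of `ℝᵈ` contains a cross-polytope of largest volume, the
largest value of `vol^m_M(M)` is the volume of the Euclidean unit ball, `π^(d/2) / Γ(d/2+1)`, and it
is attained exactly if `M` is an ellipsoid. -/
theorem result : ∀ d : ℕ, 1 ≤ d →
    (∀ M : Set (Space d), IsSymConvexBody M → ∃ t, IsGreatest (inscribedVolumes M) t) ∧
    IsGreatest {m : ℝ | ∃ M : Set (Space d), IsSymConvexBody M ∧ m = gromovMass M}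
      (vol (Metric.closedBall (0 : Space d) 1)) ∧
    vol (Metric.closedBall (0 : Space d) 1) = √Real.pi ^ d / Real.Gamma (d / 2 + 1) ∧
    ∀ M : Set (Space d), IsSymConvexBody M →
      (gromovMass M = vol (Metric.closedBall (0 : Space d) 1) ↔
        ∃ T : Space d ≃ₗ[ℝ] Space d, M = T '' Metric.closedBall 0 1) := by
  intro d hd
  obtain ⟨N, rfl⟩ : ∃ N, d = N + 1 := ⟨d - 1, by omega⟩
  have hball : IsSymConvexBody (Metric.closedBall (0 : Space (N + 1)) 1) :=
    (body_iff _).2 (ball_body _)
  refine ⟨fun M hM => ⟨_, greatest hd hM⟩, ⟨⟨_, hball, ?_⟩, ?_⟩, ?_, ?_⟩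
  · rw [mass_eq hd hball, G_ball]
    rfl
  · rintro m ⟨M, hM, rfl⟩
    rw [mass_eq hd hM]
    exact G_le ((body_iff M).1 hM)
  · unfold vol
    rw [EuclideanSpace.volume_closedBall, ENNReal.ofReal_one, one_pow, one_mul, Fintype.card_fin,
      ENNReal.toReal_ofReal (by positivity)]
  · intro M hM
    rw [mass_eq hd hM]
    have h := G_eq_iff ((body_iff M).1 hM)
    constructor
    · intro h1
      obtain ⟨T, hT⟩ := h.1 h1
      exact ⟨T, hT.symm⟩
    · rintro ⟨T, hT⟩
      exact h.2 ⟨T, hT.symm⟩

end Pool.Agent.Results.MP_77d991_gt.MaximalGromovMass
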